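import Mathlib

/-!
A set system on an infinite set whose maximal-shattering sequence has `s_2 = 2` and `s_3 = 1`.
-/

set_option autoImplicit false

namespace Pool.Agent.Results.MP_522a36_co.ShatterDrop

open Set

variable {X : Type*}

/-- `S` shatters `Y`: every subset of `Y` is the intersection of `Y` with a member of `S`. -/
def Shatters (S : Set (Set X)) (Y : Set X) : Prop :=
  ∀ Z, Z ⊆ Y → ∃ A ∈ S, A ∩ Y = Z

/-- The VC-dimension: the supremum of the sizes of the finite sets shattered by `S`. -/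
noncomputable def vcDim (S : Set (Set X)) : ℕ∞ :=
  sSup {n | ∃ Y : Set X, Y.Finite ∧ Shatters S Y ∧ Y.encard = n}

/-- The `k`-fold union family `{S_1 ∪ ... ∪ S_k : S_i ∈ S}`. -/
def unionFam (S : Set (Set X)) (k : ℕ) : Set (Set X) :=
  {A | ∃ f : Fin k → Set X, (∀ i, f i ∈ S) ∧ A = ⋃ i, f i}

/-- The trace family of `S` on `Y`. -/
def traceFam (S : Set (Set X)) (Y : Set X) : Set (Set X) :=
  {T | ∃ A ∈ S, T = A ∩ Y}

/-- `Y` and `Y'` are shatter-isomorphic with respect to `S`. -/
def ShIso (S : Set (Set X)) (Y Y' : Set X) : Prop :=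
  ∃ f : X → X, BijOn f Y Y' ∧ (fun T => f '' T) '' traceFam S Y = traceFam S Y'

lemma ShIso.refl (S : Set (Set X)) (Y : Set X) : ShIso S Y Y :=
  ⟨id, bijOn_id Y, by simp⟩

lemma ShIso.trans {S : Set (Set X)} {Y Y' Y'' : Set X} (h : ShIso S Y Y') (h' : ShIso S Y' Y'') :
    ShIso S Y Y'' := by
  obtain ⟨f, hf, hf2⟩ := h
  obtain ⟨g, hg, hg2⟩ := h'
  refine ⟨g ∘ f, hg.comp hf, ?_⟩
  rw [← hg2, ← hf2, Set.image_image]
  simp only [image_comp]

lemma ShIso.symm {S : Set (Set X)} {Y Y' : Set X} (h : ShIso S Y Y') : ShIso S Y' Y := by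
  obtain ⟨f, hf, hf2⟩ := h
  rcases Y.eq_empty_or_nonempty with rfl | ⟨y, hy⟩
  · have hY' : Y' = ∅ := by rw [← hf.image_eq]; simp
    subst hY'
    exact ShIso.refl _ _
  have : Nonempty X := ⟨y⟩
  have hinv : InvOn (Function.invFunOn f Y) f Y Y' := hf.invOn_invFunOn
  refine ⟨Function.invFunOn f Y, hinv.symm.bijOn hf.surjOn.mapsTo_invFunOn hf.mapsTo, ?_⟩
  rw [← hf2, Set.image_image]
  have : ∀ T ∈ traceFam S Y, Function.invFunOn f Y '' (f '' T) = T := by
    rintro T ⟨A, -, rfl⟩
    rw [← image_comp]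
    ext x
    constructor
    · rintro ⟨z, hz, rfl⟩
      have : (Function.invFunOn f Y ∘ f) z = z := hinv.1 hz.2
      rw [this]
      exact hz
    · intro hx
      exact ⟨x, hx, hinv.1 hx.2⟩
  exact (Set.image_congr this).trans (by simp)

/-- The sets of size `d_k = VC(S^{∪k})` that are shattered by `S^{∪k}`. -/
def MaxShattered (S : Set (Set X)) (k : ℕ) : Type _ :=
  {Y : Set X // Y.Finite ∧ Shatters (unionFam S k) Y ∧ Y.encard = vcDim (unionFam S k)}

/-- Shatter-isomorphism on these sets. -/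
def shSetoid (S : Set (Set X)) (k : ℕ) : Setoid (MaxShattered S k) where
  r Y Y' := ShIso S Y.1 Y'.1
  iseqv := ⟨fun Y => ShIso.refl S Y.1, fun h => h.symm, fun h h' => h.trans h'⟩

/-- The number `s_k` of shatter-isomorphism classes. -/
noncomputable def maxShat (S : Set (Set X)) (k : ℕ) : ℕ :=
  Nat.card (Quotient (shSetoid S k))

/-! ### The example -/

/-- the seven sets of the example, as subsets of a four element set -/
def fam : Finset (Finset (Fin 4)) := {∅, {0}, {1}, {2}, {3}, {0, 1}, {0, 2}}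

/-- the example, for four points of `X` -/
def exS (e : Fin 4 ↪ X) (U : Finset (Finset (Fin 4))) : Set (Set X) :=
  {A | ∃ F ∈ U, A = e '' (F : Set (Fin 4))}

/-- finite version of shattering -/
def FShatters (U : Finset (Finset (Fin 4))) (T : Finset (Fin 4)) : Prop :=
  ∀ Z ∈ T.powerset, ∃ F ∈ U, F ∩ T = Z

instance (U : Finset (Finset (Fin 4))) (T : Finset (Fin 4)) : Decidable (FShatters U T) := by
  unfold FShatters
  infer_instance

lemma shatters_iff (e : Fin 4 ↪ X) (U : Finset (Finset (Fin 4))) (Y : Set X) :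
    Shatters (exS e U) Y ↔ ∃ T : Finset (Fin 4), Y = e '' (T : Set (Fin 4)) ∧ FShatters U T := by
  constructor
  · intro h
    obtain ⟨A, ⟨F, hF, rfl⟩, hA⟩ := h Y Subset.rfl
    have hY : Y ⊆ e '' (F : Set (Fin 4)) := by
      rw [← hA]
      exact inter_subset_left
    classical
    refine ⟨Finset.univ.filter fun i => e i ∈ Y, ?_, ?_⟩
    · ext x
      simp only [Finset.coe_filter, Finset.mem_univ, true_and, mem_image, mem_ofPred_eq]
      constructor
      · intro hx
        obtain ⟨i, -, rfl⟩ := hY hx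
        exact ⟨i, hx, rfl⟩
      · rintro ⟨i, hi, rfl⟩
        exact hi
    · intro Z hZ
      rw [Finset.mem_powerset] at hZ
      obtain ⟨A, ⟨F', hF', rfl⟩, hA⟩ := h (e '' (Z : Set (Fin 4))) (by
        rintro x ⟨i, hi, rfl⟩
        have := hZ hi
        simpa using this)
      refine ⟨F', hF', ?_⟩
      ext i
      have h1 : e i ∈ e '' (F' : Set (Fin 4)) ∩ Y ↔ e i ∈ e '' (Z : Set (Fin 4)) := by rw [hA]
      simp only [mem_inter_iff, e.injective.mem_set_image, Finset.mem_coe] at h1
      simp only [Finset.mem_inter, Finset.mem_filter, Finset.mem_univ, true_and]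
      exact h1
  · rintro ⟨T, rfl, hT⟩ Z hZ
    classical
    obtain ⟨F, hF, h⟩ := hT (Finset.univ.filter fun i => e i ∈ Z) (by
      rw [Finset.mem_powerset]
      intro i hi
      simp only [Finset.mem_filter, Finset.mem_univ, true_and] at hi
      have := hZ hi
      simpa using this)
    refine ⟨e '' (F : Set (Fin 4)), ⟨F, hF, rfl⟩, ?_⟩
    rw [← image_inter e.injective]
    ext x
    constructor
    · rintro ⟨i, hi, rfl⟩
      have : i ∈ F ∩ T := by simpa using hi
      rw [h] at this
      simpa using this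
    · intro hx
      obtain ⟨i, hi, rfl⟩ := hZ hx
      refine ⟨i, ?_, rfl⟩
      have : i ∈ F ∩ T := by
        rw [h]
        simpa using hx
      simpa using this

lemma encard_image (e : Fin 4 ↪ X) (T : Finset (Fin 4)) :
    (e '' (T : Set (Fin 4))).encard = T.card := by
  rw [e.injective.encard_image, encard_coe_eq_coe_finsetCard]

lemma vcDim_exS (e : Fin 4 ↪ X) (U : Finset (Finset (Fin 4))) (d : ℕ)
    (h1 : ∃ T, FShatters U T ∧ T.card = d) (h2 : ∀ T, FShatters U T → T.card ≤ d) :
    vcDim (exS e U) = d := by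
  apply le_antisymm
  · apply sSup_le
    rintro n ⟨Y, -, hY, rfl⟩
    obtain ⟨T, rfl, hT⟩ := (shatters_iff e U Y).1 hY
    rw [encard_image]
    exact_mod_cast h2 T hT
  · obtain ⟨T, hT, rfl⟩ := h1
    apply le_sSup
    exact ⟨e '' (T : Set (Fin 4)), T.finite_toSet.image e, (shatters_iff e U _).2 ⟨T, rfl, hT⟩,
      encard_image e T⟩

/-- two-fold unions -/
def fam2 : Finset (Finset (Fin 4)) := (fam ×ˢ fam).image fun p => p.1 ∪ p.2

/-- three-fold unions -/
def fam3 : Finset (Finset (Fin 4)) := (fam2 ×ˢ fam).image fun p => p.1 ∪ p.2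

lemma unionFam_two (e : Fin 4 ↪ X) : unionFam (exS e fam) 2 = exS e fam2 := by
  ext A
  constructor
  · rintro ⟨f, hf, rfl⟩
    obtain ⟨F, hF, h0⟩ := hf 0
    obtain ⟨F', hF', h1⟩ := hf 1
    refine ⟨F ∪ F', ?_, ?_⟩
    · exact Finset.mem_image.2 ⟨(F, F'), Finset.mem_product.2 ⟨hF, hF'⟩, rfl⟩
    · rw [Finset.coe_union, image_union, ← h0, ← h1]
      ext x
      simp [Fin.exists_fin_two]
  · rintro ⟨F, hF, rfl⟩
    obtain ⟨⟨F1, F2⟩, hF12, rfl⟩ := Finset.mem_image.1 hF
    rw [Finset.mem_product] at hF12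
    refine ⟨![e '' (F1 : Set (Fin 4)), e '' (F2 : Set (Fin 4))], ?_, ?_⟩
    · intro i
      fin_cases i
      · exact ⟨F1, hF12.1, rfl⟩
      · exact ⟨F2, hF12.2, rfl⟩
    · rw [Finset.coe_union, image_union]
      ext x
      simp [Fin.exists_fin_two]

lemma unionFam_three (e : Fin 4 ↪ X) : unionFam (exS e fam) 3 = exS e fam3 := by
  ext A
  constructor
  · rintro ⟨f, hf, rfl⟩
    obtain ⟨F0, hF0, h0⟩ := hf 0
    obtain ⟨F1, hF1, h1⟩ := hf 1
    obtain ⟨F2, hF2, h2⟩ := hf 2
    refine ⟨F0 ∪ F1 ∪ F2, ?_, ?_⟩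
    · exact Finset.mem_image.2 ⟨(F0 ∪ F1, F2), Finset.mem_product.2
        ⟨Finset.mem_image.2 ⟨(F0, F1), Finset.mem_product.2 ⟨hF0, hF1⟩, rfl⟩, hF2⟩, rfl⟩
    · rw [Finset.coe_union, Finset.coe_union, image_union, image_union, ← h0, ← h1, ← h2]
      ext x
      simp [Fin.exists_fin_succ, or_assoc]
  · rintro ⟨F, hF, rfl⟩
    obtain ⟨⟨F', F2⟩, hF12, rfl⟩ := Finset.mem_image.1 hF
    rw [Finset.mem_product] at hF12
    obtain ⟨⟨F0, F1⟩, hF01, h⟩ := Finset.mem_image.1 hF12.1
    simp only at h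
    subst h
    rw [Finset.mem_product] at hF01
    refine ⟨![e '' (F0 : Set (Fin 4)), e '' (F1 : Set (Fin 4)), e '' (F2 : Set (Fin 4))], ?_, ?_⟩
    · intro i
      fin_cases i
      · exact ⟨F0, hF01.1, rfl⟩
      · exact ⟨F1, hF01.2, rfl⟩
      · exact ⟨F2, hF12.2, rfl⟩
    · simp only [Finset.coe_union, image_union]
      ext x
      simp [Fin.exists_fin_succ, or_assoc]

lemma vc_one (e : Fin 4 ↪ X) : vcDim (exS e fam) ≠ ⊤ := by
  have : vcDim (exS e fam) ≤ 4 := by
    apply sSup_le
    rintro n ⟨Y, -, hY, rfl⟩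
    obtain ⟨T, rfl, hT⟩ := (shatters_iff e fam Y).1 hY
    rw [encard_image]
    exact_mod_cast (Finset.card_le_univ T).trans (by simp)
  intro h
  rw [h] at this
  exact absurd this (by simp)

lemma vc_two (e : Fin 4 ↪ X) : vcDim (unionFam (exS e fam) 2) = 3 := by
  rw [unionFam_two]
  exact vcDim_exS e fam2 3 (by decide +kernel) (by decide +kernel)

lemma vc_three (e : Fin 4 ↪ X) : vcDim (unionFam (exS e fam) 3) = 4 := by
  rw [unionFam_three]
  exact vcDim_exS e fam3 4 (by decide +kernel) (by decide +kernel)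

lemma shattered_two : ∀ T : Finset (Fin 4), FShatters fam2 T → T.card = 3 →
    T = {0, 1, 2} ∨ T = {0, 1, 3} ∨ T = {0, 2, 3} := by
  decide +kernel

lemma shattered_two' : FShatters fam2 {0, 1, 2} ∧ FShatters fam2 {0, 1, 3} := by
  decide +kernel

lemma shattered_three : ∀ T : Finset (Fin 4), FShatters fam3 T → T.card = 4 → T = Finset.univ := by
  decide +kernel

lemma shattered_three' : FShatters fam3 Finset.univ := by
  decide +kernel

/-- the finite trace family -/
def ftrace (T : Finset (Fin 4)) : Finset (Finset (Fin 4)) := fam.image fun F => F ∩ T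

lemma traceFam_eq (e : Fin 4 ↪ X) (T : Finset (Fin 4)) :
    traceFam (exS e fam) (e '' (T : Set (Fin 4))) =
      (fun F : Finset (Fin 4) => e '' (F : Set (Fin 4))) '' (ftrace T : Set (Finset (Fin 4))) := by
  ext Z
  constructor
  · rintro ⟨A, ⟨F, hF, rfl⟩, rfl⟩
    refine ⟨F ∩ T, ?_, ?_⟩
    · exact Finset.mem_coe.2 (Finset.mem_image.2 ⟨F, hF, rfl⟩)
    · simp only [Finset.coe_inter]
      exact image_inter e.injective
  · rintro ⟨G, hG, rfl⟩
    obtain ⟨F, hF, rfl⟩ := Finset.mem_image.1 (Finset.mem_coe.1 hG)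
    refine ⟨e '' (F : Set (Fin 4)), ⟨F, hF, rfl⟩, ?_⟩
    simp only [Finset.coe_inter]
    exact image_inter e.injective

lemma ncard_traceFam (e : Fin 4 ↪ X) (T : Finset (Fin 4)) :
    (traceFam (exS e fam) (e '' (T : Set (Fin 4)))).ncard = (ftrace T).card := by
  rw [traceFam_eq, ncard_image_of_injective, ncard_coe_finset]
  intro F G h
  exact Finset.coe_injective (e.injective.image_injective h)

lemma ShIso.ncard_eq {S : Set (Set X)} {Y Y' : Set X} (h : ShIso S Y Y') :
    (traceFam S Y).ncard = (traceFam S Y').ncard := by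
  obtain ⟨f, hf, hf2⟩ := h
  rw [← hf2]
  symm
  apply InjOn.ncard_image
  rintro T ⟨A, -, rfl⟩ T' ⟨A', -, rfl⟩ h
  exact (hf.injOn.image_eq_image_iff inter_subset_right inter_subset_right).1 h

lemma shIso_example (e : Fin 4 ↪ X) :
    ShIso (exS e fam) (e '' (({0, 1, 3} : Finset (Fin 4)) : Set (Fin 4)))
      (e '' (({0, 2, 3} : Finset (Fin 4)) : Set (Fin 4))) := by
  classical
  let σ : Equiv.Perm (Fin 4) := Equiv.swap 1 2
  let f : X → X := Function.extend e (fun i => e (σ i)) id
  have hf : ∀ i, f (e i) = e (σ i) := fun i => e.injective.extend_apply _ _ i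
  have himg : ∀ T : Finset (Fin 4), f '' (e '' (T : Set (Fin 4))) =
      e '' ((T.image σ : Finset (Fin 4)) : Set (Fin 4)) := by
    intro T
    rw [image_image, Finset.coe_image, image_image]
    exact image_congr fun i _ => hf i
  have hinj : InjOn f (range e) := by
    rintro _ ⟨i, rfl⟩ _ ⟨j, rfl⟩ h
    rw [hf, hf] at h
    rw [σ.injective (e.injective h)]
  have hT : ({0, 1, 3} : Finset (Fin 4)).image σ = {0, 2, 3} := by decide +kernel
  refine ⟨f, ⟨?_, hinj.mono (image_subset_range _ _), ?_⟩, ?_⟩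
  · rw [mapsTo_iff_image_subset, himg, hT]
  · rw [SurjOn, himg, hT]
  · rw [traceFam_eq, traceFam_eq, image_image]
    have h2 : (ftrace {0, 1, 3}).image (fun F => F.image σ) = ftrace {0, 2, 3} := by
      decide +kernel
    rw [← h2, Finset.coe_image, image_image]
    exact image_congr fun F _ => himg F

lemma maxShat_two (e : Fin 4 ↪ X) : maxShat (exS e fam) 2 = 2 := by
  classical
  have key : ∀ Y : MaxShattered (exS e fam) 2,
      Y.1 = e '' (({0, 1, 2} : Finset (Fin 4)) : Set (Fin 4)) ∨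
      Y.1 = e '' (({0, 1, 3} : Finset (Fin 4)) : Set (Fin 4)) ∨
      Y.1 = e '' (({0, 2, 3} : Finset (Fin 4)) : Set (Fin 4)) := by
    rintro ⟨Y, hYf, hY, hYc⟩
    rw [vc_two] at hYc
    rw [unionFam_two] at hY
    obtain ⟨T, rfl, hT⟩ := (shatters_iff e fam2 Y).1 hY
    rw [encard_image] at hYc
    have hc : T.card = 3 := by exact_mod_cast hYc
    rcases shattered_two T hT hc with rfl | rfl | rfl <;> simp
  have mk : ∀ T : Finset (Fin 4), FShatters fam2 T → T.card = 3 →
      ∃ Y : MaxShattered (exS e fam) 2, Y.1 = e '' (T : Set (Fin 4)) := by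
    intro T hT hc
    refine ⟨⟨e '' (T : Set (Fin 4)), T.finite_toSet.image e, ?_, ?_⟩, rfl⟩
    · rw [unionFam_two]
      exact (shatters_iff e fam2 _).2 ⟨T, rfl, hT⟩
    · rw [vc_two, encard_image, hc]
      rfl
  let inv : MaxShattered (exS e fam) 2 → Bool := fun Y =>
    decide ((traceFam (exS e fam) Y.1).ncard = 6)
  have c012 : (ftrace {0, 1, 2}).card = 6 := by decide +kernel
  have c013 : (ftrace {0, 1, 3}).card = 5 := by decide +kernel
  have c023 : (ftrace {0, 2, 3}).card = 5 := by decide +kernel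
  let g : Quotient (shSetoid (exS e fam) 2) → Bool := Quotient.lift inv (by
    intro Y Y' h
    have h' : ShIso (exS e fam) Y.1 Y'.1 := h
    simp only [inv]
    rw [h'.ncard_eq])
  have hg : Function.Bijective g := by
    constructor
    · intro a b
      refine Quotient.inductionOn₂ a b ?_
      intro Y Y' h
      have h' : decide ((traceFam (exS e fam) Y.1).ncard = 6) =
        decide ((traceFam (exS e fam) Y'.1).ncard = 6) := h
      apply Quotient.sound
      change ShIso (exS e fam) Y.1 Y'.1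
      rcases key Y with hY | hY | hY <;> rcases key Y' with hY' | hY' | hY' <;>
        rw [hY, hY'] at h' ⊢ <;> simp only [ncard_traceFam, c012, c013, c023] at h' <;>
        first
          | exact ShIso.refl _ _
          | exact shIso_example e
          | exact (shIso_example e).symm
          | simp at h'
    · intro b
      cases b
      · obtain ⟨Y, hY⟩ := mk {0, 1, 3} shattered_two'.2 rfl
        refine ⟨Quotient.mk _ Y, ?_⟩
        change decide ((traceFam (exS e fam) Y.1).ncard = 6) = false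
        rw [hY, ncard_traceFam, c013]
        rfl
      · obtain ⟨Y, hY⟩ := mk {0, 1, 2} shattered_two'.1 rfl
        refine ⟨Quotient.mk _ Y, ?_⟩
        change decide ((traceFam (exS e fam) Y.1).ncard = 6) = true
        rw [hY, ncard_traceFam, c012]
        rfl
  unfold maxShat
  rw [Nat.card_eq_of_bijective g hg]
  simp

lemma maxShat_three (e : Fin 4 ↪ X) : maxShat (exS e fam) 3 = 1 := by
  have key : ∀ Y : MaxShattered (exS e fam) 3,
      Y.1 = e '' ((Finset.univ : Finset (Fin 4)) : Set (Fin 4)) := by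
    rintro ⟨Y, hYf, hY, hYc⟩
    rw [vc_three] at hYc
    rw [unionFam_three] at hY
    obtain ⟨T, rfl, hT⟩ := (shatters_iff e fam3 Y).1 hY
    rw [encard_image] at hYc
    have hc : T.card = 4 := by exact_mod_cast hYc
    obtain rfl := shattered_three T hT hc
    rfl
  unfold maxShat
  rw [Nat.card_eq_one_iff_unique]
  constructor
  · constructor
    intro a b
    refine Quotient.inductionOn₂ a b ?_
    intro Y Y'
    apply Quotient.sound
    change ShIso (exS e fam) Y.1 Y'.1
    rw [key Y, key Y']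
    exact ShIso.refl _ _
  · refine ⟨Quotient.mk _ ⟨e '' ((Finset.univ : Finset (Fin 4)) : Set (Fin 4)),
      Finset.univ.finite_toSet.image e, ?_, ?_⟩⟩
    · rw [unionFam_three]
      exact (shatters_iff e fam3 _).2 ⟨Finset.univ, rfl, shattered_three'⟩
    · rw [vc_three, encard_image]
      rfl

/-- On every infinite set there is a set system of finite VC-dimension whose maximal-shattering
sequence has `s_2 = 2` and `s_3 = 1`, so it is not non-decreasing. -/
theorem result (X : Type*) [Infinite X] :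
    ∃ S : Set (Set X), vcDim S ≠ ⊤ ∧ maxShat S 2 = 2 ∧ maxShat S 3 = 1 := by
  obtain ⟨e⟩ : Nonempty (Fin 4 ↪ X) := ⟨(Fin.valEmbedding).trans (Infinite.natEmbedding X)⟩
  exact ⟨exS e fam, vc_one e, maxShat_two e, maxShat_three e⟩

end Pool.Agent.Results.MP_522a36_co.ShatterDrop
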